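import Mathlib
import Pool.Agent.TH636.Lat

/-!
# The Sanov subgroup of `SL(2,ℤ)`: a free lattice in `SL(2,ℝ)`
-/

open MeasureTheory Matrix
open scoped ENNReal MatrixGroups Pointwise

namespace Pool.Agent.R805.LatAct

open Pool.Agent.TH636.Lat

/-- The first generator. -/
def gA : SL(2, ℤ) := ⟨!![1, 2; 0, 1], by decide⟩
/-- The second generator. -/
def gB : SL(2, ℤ) := ⟨!![1, 0; 2, 1], by decide⟩
/-- Inverse of the first generator. -/
def gA' : SL(2, ℤ) := ⟨!![1, -2; 0, 1], by decide⟩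
/-- Inverse of the second generator. -/
def gB' : SL(2, ℤ) := ⟨!![1, 0; -2, 1], by decide⟩

lemma gA_inv : gA⁻¹ = gA' := by
  rw [inv_eq_iff_mul_eq_one]; decide +kernel

lemma gB_inv : gB⁻¹ = gB' := by
  rw [inv_eq_iff_mul_eq_one]; decide +kernel

/-- The two generators. -/
def gen : Bool → SL(2, ℤ)
  | false => gA
  | true => gB

/-! ### Freeness -/

/-- Nonzero vectors of the plane. -/
abbrev Nz : Type := {p : Fin 2 → ℤ // p ≠ 0}

lemma mulVec_inj (g : SL(2, ℤ)) {p : Fin 2 → ℤ} (h : (g : Matrix (Fin 2) (Fin 2) ℤ).mulVec p = 0) :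
    p = 0 := by
  have h1 : ((g⁻¹ : SL(2, ℤ)) : Matrix (Fin 2) (Fin 2) ℤ).mulVec
      ((g : Matrix (Fin 2) (Fin 2) ℤ).mulVec p) = p := by
    rw [Matrix.mulVec_mulVec, ← Matrix.SpecialLinearGroup.coe_mul, inv_mul_cancel]
    simp
  rw [← h1, h, Matrix.mulVec_zero]

noncomputable instance nzAct : MulAction SL(2, ℤ) Nz where
  smul g p := ⟨(g : Matrix (Fin 2) (Fin 2) ℤ).mulVec p.1, fun h => p.2 (mulVec_inj g h)⟩
  one_smul p := Subtype.ext (by
    change ((1 : SL(2, ℤ)) : Matrix (Fin 2) (Fin 2) ℤ).mulVec p.1 = p.1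
    simp)
  mul_smul g h p := Subtype.ext (by
    change ((g * h : SL(2, ℤ)) : Matrix (Fin 2) (Fin 2) ℤ).mulVec p.1 =
      (g : Matrix (Fin 2) (Fin 2) ℤ).mulVec ((h : Matrix (Fin 2) (Fin 2) ℤ).mulVec p.1)
    rw [Matrix.mulVec_mulVec, ← Matrix.SpecialLinearGroup.coe_mul])

lemma nz_val (g : SL(2, ℤ)) (p : Nz) :
    (g • p).1 = (g : Matrix (Fin 2) (Fin 2) ℤ).mulVec p.1 := rfl

/-- The first family of sets. -/
def XS : Bool → Set Nz
  | false => {p | p.1 1 = 0 ∨ (p.1 1) ^ 2 < p.1 0 * p.1 1}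
  | true => {p | (p.1 0) ^ 2 ≤ p.1 0 * p.1 1}

/-- The second family of sets. -/
def YS : Bool → Set Nz
  | false => {p | p.1 1 ≠ 0 ∧ p.1 0 * p.1 1 ≤ -(p.1 1) ^ 2}
  | true => {p | p.1 0 * p.1 1 < -(p.1 0) ^ 2}

lemma nz_cases (p : Nz) : p.1 0 ≠ 0 ∨ p.1 1 ≠ 0 := by
  by_contra h
  push Not at h
  apply p.2
  funext i
  fin_cases i
  · exact h.1
  · exact h.2

open scoped Function in
theorem gen_injective : Function.Injective (FreeGroup.lift gen) := by
  have hX : Disjoint (XS false) (XS true) := by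
    rw [Set.disjoint_left]
    rintro p h1 h2
    change (p.1 1 = 0 ∨ (p.1 1) ^ 2 < p.1 0 * p.1 1) at h1
    change (p.1 0) ^ 2 ≤ p.1 0 * p.1 1 at h2
    rcases h1 with h1 | h1
    · rw [h1, mul_zero] at h2
      have h3 : p.1 0 = 0 := by nlinarith
      rcases nz_cases p with h | h
      · exact h h3
      · exact h h1
    · nlinarith [sq_nonneg (p.1 0 - p.1 1)]
  have hY : Disjoint (YS false) (YS true) := by
    rw [Set.disjoint_left]
    rintro p h1 h2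
    change (p.1 1 ≠ 0 ∧ p.1 0 * p.1 1 ≤ -(p.1 1) ^ 2) at h1
    change p.1 0 * p.1 1 < -(p.1 0) ^ 2 at h2
    nlinarith [sq_nonneg (p.1 0 + p.1 1), h1.2]
  refine FreeGroup.injective_lift_of_ping_pong gen (α := Nz) XS YS ?_ ?_ ?_ ?_ ?_ ?_
  · intro i
    cases i
    · exact ⟨⟨![1, 0], by decide⟩, Or.inl rfl⟩
    · refine ⟨⟨![0, 1], by decide⟩, ?_⟩
      change ((![0, 1] : Fin 2 → ℤ) 0) ^ 2 ≤ (![0, 1] : Fin 2 → ℤ) 0 * (![0, 1] : Fin 2 → ℤ) 1
      simp
  · intro i j hij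
    cases i <;> cases j
    · exact absurd rfl hij
    · exact hX
    · exact hX.symm
    · exact absurd rfl hij
  · intro i j hij
    cases i <;> cases j
    · exact absurd rfl hij
    · exact hY
    · exact hY.symm
    · exact absurd rfl hij
  · intro i j
    rw [Set.disjoint_left]
    intro p
    cases i <;> cases j
    · rintro h1 h2
      change (p.1 1 = 0 ∨ (p.1 1) ^ 2 < p.1 0 * p.1 1) at h1
      change (p.1 1 ≠ 0 ∧ p.1 0 * p.1 1 ≤ -(p.1 1) ^ 2) at h2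
      rcases h1 with h1 | h1
      · exact h2.1 h1
      · nlinarith [h2.2]
    · rintro h1 h2
      change (p.1 1 = 0 ∨ (p.1 1) ^ 2 < p.1 0 * p.1 1) at h1
      change p.1 0 * p.1 1 < -(p.1 0) ^ 2 at h2
      rcases h1 with h1 | h1
      · rw [h1, mul_zero] at h2
        nlinarith
      · nlinarith
    · rintro h1 h2
      change (p.1 0) ^ 2 ≤ p.1 0 * p.1 1 at h1
      change (p.1 1 ≠ 0 ∧ p.1 0 * p.1 1 ≤ -(p.1 1) ^ 2) at h2
      have h3 : 0 < (p.1 1) ^ 2 := by have := h2.1; positivity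
      nlinarith [h2.2]
    · rintro h1 h2
      change (p.1 0) ^ 2 ≤ p.1 0 * p.1 1 at h1
      change p.1 0 * p.1 1 < -(p.1 0) ^ 2 at h2
      nlinarith
  · intro i
    rintro _ ⟨p, h1, rfl⟩
    cases i
    · change ¬ (p.1 1 ≠ 0 ∧ p.1 0 * p.1 1 ≤ -(p.1 1) ^ 2) at h1
      change ((gA • p).1 1 = 0 ∨ ((gA • p).1 1) ^ 2 < (gA • p).1 0 * (gA • p).1 1)
      have e0 : (gA • p).1 0 = p.1 0 + 2 * p.1 1 := by
        rw [nz_val]; simp [gA, Matrix.mulVec, dotProduct, Fin.sum_univ_two]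
      have e1 : (gA • p).1 1 = p.1 1 := by
        rw [nz_val]; simp [gA, Matrix.mulVec, dotProduct, Fin.sum_univ_two]
      rw [e0, e1]
      by_cases h : p.1 1 = 0
      · exact Or.inl h
      · right
        have h2 : -(p.1 1) ^ 2 < p.1 0 * p.1 1 := not_le.1 fun h3 => h1 ⟨h, h3⟩
        nlinarith
    · change ¬ (p.1 0 * p.1 1 < -(p.1 0) ^ 2) at h1
      change ((gB • p).1 0) ^ 2 ≤ (gB • p).1 0 * (gB • p).1 1
      have e0 : (gB • p).1 0 = p.1 0 := by
        rw [nz_val]; simp [gB, Matrix.mulVec, dotProduct, Fin.sum_univ_two]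
      have e1 : (gB • p).1 1 = 2 * p.1 0 + p.1 1 := by
        rw [nz_val]; simp [gB, Matrix.mulVec, dotProduct, Fin.sum_univ_two]
      rw [e0, e1]
      nlinarith
  · intro i
    rintro _ ⟨p, h1, rfl⟩
    cases i
    · change ¬ (p.1 1 = 0 ∨ (p.1 1) ^ 2 < p.1 0 * p.1 1) at h1
      change ((gA⁻¹ • p).1 1 ≠ 0 ∧ (gA⁻¹ • p).1 0 * (gA⁻¹ • p).1 1 ≤ -((gA⁻¹ • p).1 1) ^ 2)
      rw [gA_inv]
      have e0 : (gA' • p).1 0 = p.1 0 - 2 * p.1 1 := by
        rw [nz_val]; simp [gA', Matrix.mulVec, dotProduct, Fin.sum_univ_two]; ring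
      have e1 : (gA' • p).1 1 = p.1 1 := by
        rw [nz_val]; simp [gA', Matrix.mulVec, dotProduct, Fin.sum_univ_two]
      rw [e0, e1]
      push Not at h1
      refine ⟨h1.1, ?_⟩
      nlinarith [h1.2]
    · change ¬ ((p.1 0) ^ 2 ≤ p.1 0 * p.1 1) at h1
      change (gB⁻¹ • p).1 0 * (gB⁻¹ • p).1 1 < -((gB⁻¹ • p).1 0) ^ 2
      rw [gB_inv]
      have e0 : (gB' • p).1 0 = p.1 0 := by
        rw [nz_val]; simp [gB', Matrix.mulVec, dotProduct, Fin.sum_univ_two]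
      have e1 : (gB' • p).1 1 = p.1 1 - 2 * p.1 0 := by
        rw [nz_val]; simp [gB', Matrix.mulVec, dotProduct, Fin.sum_univ_two]; ring
      rw [e0, e1]
      nlinarith

/-! ### Finite index -/

/-- The subgroup generated by the two matrices. -/
def H : Subgroup SL(2, ℤ) := (FreeGroup.lift gen).range

lemma gA_mem : gA ∈ H := ⟨FreeGroup.of false, by simp [gen]⟩
lemma gB_mem : gB ∈ H := ⟨FreeGroup.of true, by simp [gen]⟩
lemma gA'_mem : gA' ∈ H := gA_inv ▸ inv_mem gA_mem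
lemma gB'_mem : gB' ∈ H := gB_inv ▸ inv_mem gB_mem

/-- Coset representatives. -/
def reps : List SL(2, ℤ) :=
  [⟨!![1, 0; 0, 1], by decide⟩, ⟨!![1, 1; 0, 1], by decide⟩, ⟨!![0, -1; 1, 0], by decide⟩,
    ⟨!![1, -1; 1, 0], by decide⟩, ⟨!![0, -1; 1, 1], by decide⟩, ⟨!![1, 0; 1, 1], by decide⟩,
    ⟨!![-1, 0; 0, -1], by decide⟩, ⟨!![-1, -1; 0, -1], by decide⟩, ⟨!![0, 1; -1, 0], by decide⟩,
    ⟨!![-1, 1; -1, 0], by decide⟩, ⟨!![0, 1; -1, -1], by decide⟩, ⟨!![-1, 0; -1, -1], by decide⟩]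

/-- Some elements of the subgroup. -/
def ws : List SL(2, ℤ) := [1, gB, gB', gA, gB * gA', gA', gA * gB']

lemma ws_mem : ∀ w ∈ ws, w ∈ H := by
  intro w hw
  simp only [ws, List.mem_cons, List.not_mem_nil, or_false] at hw
  rcases hw with rfl | rfl | rfl | rfl | rfl | rfl | rfl
  · exact one_mem _
  · exact gB_mem
  · exact gB'_mem
  · exact gA_mem
  · exact mul_mem gB_mem gA'_mem
  · exact gA'_mem
  · exact mul_mem gA_mem gB'_mem

/-- The matrix `S⁻¹`. -/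
def S' : SL(2, ℤ) := ⟨!![0, 1; -1, 0], by decide⟩
/-- The matrix `T⁻¹`. -/
def T' : SL(2, ℤ) := ⟨!![1, -1; 0, 1], by decide⟩

lemma S_inv : ModularGroup.S⁻¹ = S' := by
  rw [inv_eq_iff_mul_eq_one]; decide +kernel

lemma T_inv : ModularGroup.T⁻¹ = T' := by
  rw [inv_eq_iff_mul_eq_one]; decide +kernel

lemma check : ∀ x ∈ [ModularGroup.S, ModularGroup.T, S', T'], ∀ r ∈ reps,
    ∃ r' ∈ reps, ∃ w ∈ ws, r' * x = w * r := by
  decide +kernel

lemma step {x y : SL(2, ℤ)} (hx : x ∈ [ModularGroup.S, ModularGroup.T, S', T'])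
    (hy : ∃ r ∈ reps, r * y ∈ H) : ∃ r ∈ reps, r * (x * y) ∈ H := by
  obtain ⟨r, hr, hry⟩ := hy
  obtain ⟨r', hr', w, hw, e⟩ := check x hx r hr
  refine ⟨r', hr', ?_⟩
  rw [← mul_assoc, e, mul_assoc]
  exact mul_mem (ws_mem w hw) hry

theorem cosets (g : SL(2, ℤ)) : ∃ r ∈ reps, r * g ∈ H := by
  have hg : g ∈ Subgroup.closure {ModularGroup.S, ModularGroup.T} := by
    rw [SpecialLinearGroup.SL2Z_generators]; trivial
  induction hg using Subgroup.closure_induction_left with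
  | one =>
    refine ⟨1, ?_, by rw [mul_one]; exact one_mem _⟩
    decide +kernel
  | mul_left x hx y hy ih =>
    rcases hx with rfl | hx
    · exact step (by simp) ih
    · rw [Set.mem_singleton_iff] at hx
      subst hx
      exact step (by simp) ih
  | inv_mul_cancel x hx y hy ih =>
    rcases hx with rfl | hx
    · rw [S_inv]
      exact step (by simp) ih
    · rw [Set.mem_singleton_iff] at hx
      subst hx
      rw [T_inv]
      exact step (by simp) ih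

/-! ### The lattice -/

/-- The inclusion `SL(2,ℤ) → SL(2,ℝ)`. -/
noncomputable def rho : SL(2, ℤ) →* SL(2, ℝ) :=
  Matrix.SpecialLinearGroup.map (n := Fin 2) (Int.castRingHom ℝ)

lemma rho_injective : Function.Injective rho := by
  intro a b h
  apply Subtype.ext
  funext i j
  have h1 := congrArg (fun m : SL(2, ℝ) => (m : Matrix (Fin 2) (Fin 2) ℝ) i j) h
  simpa [rho] using h1

/-- The lattice. -/
noncomputable def Gm : Subgroup SL(2, ℝ) := H.map rho

lemma lm_rho (A : SL(2, ℤ)) (t : ℝ) (g : SL(2, ℝ)) (M : RM 2)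
    (hM : ∀ i j, M i j = t * (g : Matrix (Fin 2) (Fin 2) ℝ) i j) (i j : Fin 2) :
    lm A M i j = t * ((rho A * g : SL(2, ℝ)) : Matrix (Fin 2) (Fin 2) ℝ) i j := by
  rw [lm_apply, Matrix.SpecialLinearGroup.coe_mul, Matrix.mul_apply, Finset.mul_sum]
  refine Finset.sum_congr rfl fun k _ => ?_
  rw [hM]
  have : (rho A : Matrix (Fin 2) (Fin 2) ℝ) i k = ((A : Matrix (Fin 2) (Fin 2) ℤ) i k : ℝ) := rfl
  rw [this]
  ring

theorem isLattice_Gm : IsLattice Gm := by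
  obtain ⟨⟨ε, hε, hd⟩, F, hF, hm, hv⟩ := isLattice_Gam (n := 2) two_ne_zero
  refine ⟨⟨ε, hε, ?_⟩, ?_⟩
  · rintro γ ⟨x, -, rfl⟩ h
    exact hd _ ⟨x, rfl⟩ h
  · let F' : Set SL(2, ℝ) := {g | ∃ r ∈ reps, rho r⁻¹ * g ∈ F}
    have hcone : cone F' = ⋃ r ∈ {r : SL(2, ℤ) | r ∈ reps}, (lm r⁻¹) ⁻¹' cone F := by
      ext M
      simp only [Set.mem_iUnion, Set.mem_preimage, exists_prop, Set.mem_ofPred_eq]
      constructor
      · rintro ⟨t, ht0, ht1, g, ⟨r, hr, hg⟩, hM⟩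
        exact ⟨r, hr, t, ht0, ht1, _, hg, lm_rho r⁻¹ t g M hM⟩
      · rintro ⟨r, hr, t, ht0, ht1, g, hg, hM⟩
        refine ⟨t, ht0, ht1, rho r * g, ⟨r, hr, ?_⟩, ?_⟩
        · rw [← mul_assoc, ← map_mul, inv_mul_cancel, map_one, one_mul]
          exact hg
        · have h1 := lm_rho r t g _ hM
          rwa [← lm_mul, mul_inv_cancel, lm_one] at h1
    refine ⟨F', ?_, ?_, ?_⟩
    · intro g
      obtain ⟨γ, ⟨x, rfl⟩, hx⟩ := hF g
      obtain ⟨r, hr, hrx⟩ := cosets x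
      refine ⟨rho (r * x), ⟨_, hrx, rfl⟩, r, hr, ?_⟩
      rw [← mul_assoc, ← map_mul, inv_mul_cancel_left]
      exact hx
    · rw [hcone]
      exact MeasurableSet.biUnion (List.finite_toSet reps).countable
        fun r _ => measurable_lm r⁻¹ hm
    · rw [hcone]
      refine measure_biUnion_lt_top (List.finite_toSet reps) fun r _ => ?_
      rw [MeasureTheory.Measure.addHaar_preimage_linearMap _ (lm_det_ne r⁻¹)]
      exact ENNReal.mul_lt_top ENNReal.ofReal_lt_top hv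

end Pool.Agent.R805.LatAct
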