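import Mathlib
import Pool.Agent.R805.LatAct.Sanov
import Pool.Agent.Results.MP_2392aa_gt.NoGlobalModel

/-!
# A non-linearizable polynomial action of a free lattice of `SL(2,ℝ)` on the plane
-/

open scoped Manifold ContDiff Topology MatrixGroups

namespace Pool.Agent.R805.LatAct

open Pool.Agent.Results.MP_2392aa_gt.NoGlobalModel
open Pool.Agent.TH636.Lat (IsLattice)

/-- Permutations of the plane. -/
abbrev PP : Type := Equiv.Perm (E 2)

/-- The linear permutation given by a matrix. -/
noncomputable def linP (g : SL(2, ℝ)) : PP where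
  toFun := lin g
  invFun := lin g⁻¹
  left_inv x := by rw [← lin_mul_apply, inv_mul_cancel, lin_one]; rfl
  right_inv x := by rw [← lin_mul_apply, mul_inv_cancel, lin_one]; rfl

lemma linP_apply (g : SL(2, ℝ)) (x : E 2) : linP g x = lin g x := rfl

lemma linP_inv (g : SL(2, ℝ)) : (linP g)⁻¹ = linP g⁻¹ := by
  ext1 x
  rfl

/-- The second basis vector. -/
noncomputable def e1 : E 2 := EuclideanSpace.single 1 1

/-- The first basis vector. -/
noncomputable def e0 : E 2 := EuclideanSpace.single 0 1

lemma e1_zero : e1 0 = 0 := by simp [e1]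
lemma e1_one : e1 1 = 1 := by simp [e1]
lemma e0_zero : e0 0 = 1 := by simp [e0]
lemma e0_one : e0 1 = 0 := by simp [e0]

/-- The shear `(x, y) ↦ (x, y + s x ^ 2)`. -/
noncomputable def shF (s : ℝ) (v : E 2) : E 2 := v + (s * (v 0) ^ 2) • e1

lemma shF_zero_coord (s : ℝ) (v : E 2) : shF s v 0 = v 0 := by
  simp [shF, e1_zero]

lemma shF_one_coord (s : ℝ) (v : E 2) : shF s v 1 = v 1 + s * (v 0) ^ 2 := by
  simp [shF, e1_one]

lemma shF_shF (s t : ℝ) (v : E 2) : shF s (shF t v) = shF (s + t) v := by
  ext i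
  fin_cases i
  · change shF s (shF t v) 0 = shF (s + t) v 0
    rw [shF_zero_coord, shF_zero_coord, shF_zero_coord]
  · change shF s (shF t v) 1 = shF (s + t) v 1
    rw [shF_one_coord, shF_one_coord, shF_one_coord, shF_zero_coord]
    ring

lemma shF_zero (v : E 2) : shF 0 v = v := by
  simp [shF]

lemma shF_origin (s : ℝ) : shF s 0 = 0 := by
  simp [shF]

/-- The shear as a permutation of the plane. -/
noncomputable def shP : PP where
  toFun := shF 1
  invFun := shF (-1)
  left_inv v := by rw [shF_shF]; norm_num [shF_zero]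
  right_inv v := by rw [shF_shF]; norm_num [shF_zero]

lemma hasFDerivAt_shF (s : ℝ) (x : E 2) : HasFDerivAt (shF s)
    (ContinuousLinearMap.id ℝ (E 2) +
      (s * (2 * x 0)) • (EuclideanSpace.proj (𝕜 := ℝ) (0 : Fin 2)).smulRight e1) x := by
  have h0 : HasFDerivAt (fun v : E 2 => v 0)
      (EuclideanSpace.proj (𝕜 := ℝ) (0 : Fin 2)) x :=
    (EuclideanSpace.proj (𝕜 := ℝ) (0 : Fin 2)).hasFDerivAt
  have h1 := ((h0.pow 2).const_mul s).smul_const e1
  have h2 := (hasFDerivAt_id x).add h1
  refine h2.congr_fderiv ?_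
  ext v i
  simp
  ring

lemma contDiff_shF (s : ℝ) : ContDiff ℝ ω (shF s) := by
  have h0 : ContDiff ℝ ω (fun v : E 2 => v 0) :=
    (EuclideanSpace.proj (𝕜 := ℝ) (0 : Fin 2) : E 2 →L[ℝ] ℝ).contDiff
  exact contDiff_id.add ((contDiff_const.mul (h0.pow 2)).smul contDiff_const)

/-- The permutation is analytic, fixes the origin, and its derivative at the origin is given by the
matrix. -/
def Good (σ : PP) (g : SL(2, ℝ)) : Prop :=
  ContDiff ℝ ω σ ∧ σ 0 = 0 ∧ HasFDerivAt σ (lin g) 0

lemma Good.mul {σ τ : PP} {g k : SL(2, ℝ)} (h1 : Good σ g) (h2 : Good τ k) :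
    Good (σ * τ) (g * k) := by
  refine ⟨h1.1.comp h2.1, ?_, ?_⟩
  · change σ (τ 0) = 0
    rw [h2.2.1, h1.2.1]
  · rw [lin_mul]
    have h3 : HasFDerivAt σ (lin g) (τ 0) := by rw [h2.2.1]; exact h1.2.2
    exact h3.comp 0 h2.2.2

lemma good_one : Good 1 1 :=
  ⟨contDiff_id, rfl, by rw [lin_one]; exact hasFDerivAt_id 0⟩

lemma good_lin (g : SL(2, ℝ)) : Good (linP g) g :=
  ⟨(lin g).contDiff, map_zero (lin g), (lin g).hasFDerivAt⟩

lemma good_aux (s : ℝ) : HasFDerivAt (shF s) (lin (1 : SL(2, ℝ))) 0 := by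
  refine (hasFDerivAt_shF s 0).congr_fderiv ?_
  rw [lin_one]
  ext v i
  simp

lemma good_sh : Good shP 1 := ⟨contDiff_shF 1, shF_origin 1, good_aux 1⟩

lemma good_sh' : Good shP⁻¹ 1 := ⟨contDiff_shF (-1), shF_origin (-1), good_aux (-1)⟩

/-- The real matrices of the generators. -/
noncomputable def rA : SL(2, ℝ) := rho gA
noncomputable def rB : SL(2, ℝ) := rho gB
noncomputable def rC : SL(2, ℝ) := rho (gA * gB)

/-- The images of the free generators. -/
noncomputable def al : Bool → PP
  | false => linP rA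
  | true => linP rA⁻¹ * shP * linP rC * shP⁻¹

lemma al_good (i : Bool) : Good (al i) (rho (gen i)) := by
  cases i
  · exact good_lin rA
  · have h := (((good_lin rA⁻¹).mul good_sh).mul (good_lin rC)).mul good_sh'
    have e : rA⁻¹ * 1 * rC * 1 = rho (gen true) := by
      rw [mul_one, mul_one]
      change (rho gA)⁻¹ * rho (gA * gB) = rho gB
      rw [map_mul, inv_mul_cancel_left]
    rw [e] at h
    exact h

lemma al_good' (i : Bool) : Good (al i)⁻¹ (rho (gen i))⁻¹ := by
  cases i
  · change Good (linP rA)⁻¹ _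
    rw [linP_inv]
    exact good_lin rA⁻¹
  · have h := ((good_sh.mul (good_lin rC⁻¹)).mul good_sh').mul (good_lin rA)
    have e : 1 * rC⁻¹ * 1 * rA = (rho (gen true))⁻¹ := by
      rw [mul_one, one_mul]
      change (rho (gA * gB))⁻¹ * rho gA = (rho gB)⁻¹
      rw [map_mul, mul_inv_rev, inv_mul_cancel_right]
    have e2 : (al true)⁻¹ = shP * linP rC⁻¹ * shP⁻¹ * linP rA := by
      change (linP rA⁻¹ * shP * linP rC * shP⁻¹)⁻¹ = _
      rw [mul_inv_rev, mul_inv_rev, mul_inv_rev, inv_inv, linP_inv, linP_inv, inv_inv]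
      simp only [mul_assoc]
    rw [e2, ← e]
    exact h

/-- The embedding of the free group in `SL(2,ℝ)`. -/
noncomputable def Ph : FreeGroup Bool →* SL(2, ℝ) := rho.comp (FreeGroup.lift gen)

lemma Ph_injective : Function.Injective Ph := rho_injective.comp gen_injective

lemma Ph_range : Ph.range = Gm := by
  rw [Ph, MonoidHom.range_comp]
  rfl

/-- The free group is isomorphic to the lattice. -/
noncomputable def ee : FreeGroup Bool ≃* Gm :=
  (MonoidHom.ofInjective Ph_injective).trans (MulEquiv.subgroupCongr Ph_range)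

lemma ee_val (w : FreeGroup Bool) : ((ee w : Gm) : SL(2, ℝ)) = Ph w := rfl

lemma lift_good (w : FreeGroup Bool) : Good (FreeGroup.lift al w) (Ph w) := by
  induction w using FreeGroup.induction_on with
  | C1 => rw [map_one, map_one]; exact good_one
  | of i =>
    have : Ph (FreeGroup.of i) = rho (gen i) := by simp [Ph]
    rw [this, FreeGroup.lift_apply_of]
    exact al_good i
  | inv_of i _ =>
    have : Ph (FreeGroup.of i)⁻¹ = (rho (gen i))⁻¹ := by simp [Ph]
    rw [this, map_inv, FreeGroup.lift_apply_of]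
    exact al_good' i
  | mul x y hx hy => rw [map_mul, map_mul]; exact hx.mul hy

/-- The action as a homomorphism. -/
noncomputable def actHom : Gm →* PP := (FreeGroup.lift al).comp ee.symm.toMonoidHom

lemma act_good (γ : Gm) : Good (actHom γ) (γ : SL(2, ℝ)) := by
  have h := lift_good (ee.symm γ)
  have e : Ph (ee.symm γ) = (γ : SL(2, ℝ)) := by
    rw [← ee_val, MulEquiv.apply_symm_apply]
  rw [e] at h
  exact h

/-- The plane, as the manifold on which the lattice acts. -/
def Pl : Type := E 2

noncomputable instance : TopologicalSpace Pl := inferInstanceAs (TopologicalSpace (E 2))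

noncomputable instance : ChartedSpace (E 2) Pl := inferInstanceAs (ChartedSpace (E 2) (E 2))

/-- The action of the lattice on the plane. -/
noncomputable instance actG : MulAction Gm Pl where
  smul γ x := (actHom γ : E 2 → E 2) x
  one_smul x := by
    change (actHom 1 : E 2 → E 2) x = x
    rw [map_one]; rfl
  mul_smul γ δ x := by
    change (actHom (γ * δ) : E 2 → E 2) x = actHom γ (actHom δ x)
    rw [map_mul]; rfl

lemma smul_def' (γ : Gm) (x : Pl) : γ • x = actHom γ x := rfl

/-- The generators of the lattice. -/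
noncomputable def aG : Gm := ee (FreeGroup.of false)
noncomputable def cG : Gm := ee (FreeGroup.of false * FreeGroup.of true)

lemma aG_val : (aG : SL(2, ℝ)) = rA := by
  change Ph (FreeGroup.of false) = _
  simp [Ph, gen, rA]

lemma cG_val : (cG : SL(2, ℝ)) = rC := by
  change Ph (FreeGroup.of false * FreeGroup.of true) = _
  simp [Ph, gen, rC]

lemma aG_act (x : E 2) : actHom aG x = lin rA x := by
  have : actHom aG = linP rA := by
    simp [actHom, aG, al]
  rw [this]
  rfl

lemma cG_act (x : E 2) : actHom cG x = shF 1 (lin rC (shF (-1) x)) := by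
  have : actHom cG = shP * linP rC * shP⁻¹ := by
    have h1 : actHom cG = linP rA * (linP rA⁻¹ * shP * linP rC * shP⁻¹) := by
      simp [actHom, cG, al]
    rw [h1, ← linP_inv]
    simp only [mul_assoc, mul_inv_cancel_left]
  rw [this]
  rfl

/-- The origin. -/
noncomputable def o : Pl := (0 : E 2)

lemma smul_o (γ : Gm) : γ • o = o := (act_good γ).2.1

lemma contDiff_act (γ : Gm) : ContDiff ℝ ω (actHom γ : E 2 → E 2) := (act_good γ).1

lemma der_smul (γ : Gm) : der 2 o γ = lin (γ : SL(2, ℝ)) := by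
  change mfderiv (𝓡 2) (𝓡 2) (actHom γ : E 2 → E 2) (0 : E 2) = _
  rw [mfderiv_eq_fderiv]
  exact (act_good γ).2.2.fderiv

end Pool.Agent.R805.LatAct
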