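import Mathlib
import Pool.Agent.R805.LatAct.Act

/-!
# The action is not linearizable
-/

open scoped Manifold ContDiff Topology MatrixGroups

namespace Pool.Agent.R805.LatAct

open Pool.Agent.Results.MP_2392aa_gt.NoGlobalModel
open Pool.Agent.TH636.Lat (IsLattice)

lemma comm_at {f : E 2 → E 2} {L : E 2 →L[ℝ] E 2} {x : E 2} (h1 : DifferentiableAt ℝ f x)
    (h2 : DifferentiableAt ℝ f (L x)) (h : ∀ᶠ y in 𝓝 x, f (L y) = L (f y)) (v : E 2) :
    fderiv ℝ f (L x) (L v) = L (fderiv ℝ f x v) := by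
  have h3 : HasFDerivAt (fun y => f (L y)) ((fderiv ℝ f (L x)).comp L) x :=
    h2.hasFDerivAt.comp x L.hasFDerivAt
  have h4 : HasFDerivAt (fun y => L (f y)) (L.comp (fderiv ℝ f x)) x :=
    L.hasFDerivAt.comp x h1.hasFDerivAt
  have h5 : HasFDerivAt (fun y => f (L y)) (L.comp (fderiv ℝ f x)) x :=
    h4.congr_of_eventuallyEq h
  exact DFunLike.congr_fun (h3.unique h5) v

lemma snd_comm {f : E 2 → E 2} {L : E 2 →L[ℝ] E 2} (hf : ContDiffAt ℝ 2 f 0)
    (h : ∀ᶠ x in 𝓝 (0 : E 2), f (L x) = L (f x)) (u v : E 2) :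
    fderiv ℝ (fderiv ℝ f) 0 (L u) (L v) = L (fderiv ℝ (fderiv ℝ f) 0 u v) := by
  have hd : ∀ᶠ x in 𝓝 (0 : E 2), DifferentiableAt ℝ f x :=
    (hf.eventually (by simp)).mono fun x hx => hx.differentiableAt (by norm_num)
  have hL0 : Filter.Tendsto L (𝓝 0) (𝓝 0) := by
    have := L.continuous.tendsto 0
    rwa [map_zero] at this
  have hdL : ∀ᶠ x in 𝓝 (0 : E 2), DifferentiableAt ℝ f (L x) := hL0.eventually hd
  have he : ∀ᶠ x in 𝓝 (0 : E 2), ∀ᶠ y in 𝓝 x, f (L y) = L (f y) :=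
    eventually_eventually_nhds.2 h
  have key : (fun x => fderiv ℝ f (L x) (L v)) =ᶠ[𝓝 0] fun x => L (fderiv ℝ f x v) := by
    filter_upwards [hd, hdL, he] with x h1 h2 h3
    exact comm_at h1 h2 h3 v
  have hf' : HasFDerivAt (fderiv ℝ f) (fderiv ℝ (fderiv ℝ f) 0) 0 :=
    ((hf.fderiv_right (m := 1) (by norm_num)).differentiableAt (by norm_num)).hasFDerivAt
  have hf'' : HasFDerivAt (fderiv ℝ f) (fderiv ℝ (fderiv ℝ f) 0) (L 0) := by
    rw [map_zero]; exact hf'
  have A1 : HasFDerivAt (fun x => fderiv ℝ f (L x) (L v))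
      (((ContinuousLinearMap.apply ℝ (E 2) (L v)).comp (fderiv ℝ (fderiv ℝ f) 0)).comp L) 0 :=
    ((ContinuousLinearMap.apply ℝ (E 2) (L v)).hasFDerivAt.comp (L 0) hf'').comp 0 L.hasFDerivAt
  have A2 : HasFDerivAt (fun x => L (fderiv ℝ f x v))
      (L.comp ((ContinuousLinearMap.apply ℝ (E 2) v).comp (fderiv ℝ (fderiv ℝ f) 0))) 0 :=
    L.hasFDerivAt.comp 0 ((ContinuousLinearMap.apply ℝ (E 2) v).hasFDerivAt.comp 0 hf')
  exact DFunLike.congr_fun (A1.unique (A2.congr_of_eventuallyEq key)) u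

lemma snd_shear {f : E 2 → E 2} (hf : ContDiffAt ℝ 2 f 0) :
    fderiv ℝ (fderiv ℝ (fun x => f (shF 1 x))) 0 e0 e0 =
      fderiv ℝ (fderiv ℝ f) 0 e0 e0 + (2 : ℝ) • fderiv ℝ f 0 e1 := by
  have hd : ∀ᶠ x in 𝓝 (0 : E 2), DifferentiableAt ℝ f x :=
    (hf.eventually (by simp)).mono fun x hx => hx.differentiableAt (by norm_num)
  have hc : Continuous (shF 1) := (contDiff_shF 1).continuous
  have h0 : Filter.Tendsto (shF 1) (𝓝 0) (𝓝 0) := by
    have := hc.tendsto 0
    rwa [shF_origin] at this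
  have key : ∀ v : E 2, (fun x => fderiv ℝ (fun y => f (shF 1 y)) x v) =ᶠ[𝓝 0]
      fun x => fderiv ℝ f (shF 1 x) (v + ((2 * v 0) * x 0) • e1) := by
    intro v
    filter_upwards [h0.eventually hd] with x hx
    have h1 : HasFDerivAt (fun y => f (shF 1 y)) _ x :=
      hx.hasFDerivAt.comp x (hasFDerivAt_shF 1 x)
    rw [h1.fderiv]
    change fderiv ℝ f (shF 1 x) _ = _
    congr 1
    ext i
    simp
    ring
  have hf' : HasFDerivAt (fderiv ℝ f) (fderiv ℝ (fderiv ℝ f) 0) (shF 1 0) := by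
    rw [shF_origin]
    exact ((hf.fderiv_right (m := 1) (by norm_num)).differentiableAt (by norm_num)).hasFDerivAt
  have hsh : HasFDerivAt (shF 1) (ContinuousLinearMap.id ℝ (E 2)) 0 := by
    refine (hasFDerivAt_shF 1 0).congr_fderiv ?_
    ext v i
    simp
  have hcc : HasFDerivAt (fun x => fderiv ℝ f (shF 1 x)) (fderiv ℝ (fderiv ℝ f) 0) 0 := by
    have := hf'.comp (0 : E 2) hsh
    rwa [ContinuousLinearMap.comp_id] at this
  have hw : HasFDerivAt (fun x : E 2 => e0 + ((2 * e0 0) * x 0) • e1)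
      ((2 : ℝ) • (EuclideanSpace.proj (𝕜 := ℝ) (0 : Fin 2)).smulRight e1) 0 := by
    have h1 : HasFDerivAt (fun v : E 2 => v 0)
        (EuclideanSpace.proj (𝕜 := ℝ) (0 : Fin 2)) 0 :=
      (EuclideanSpace.proj (𝕜 := ℝ) (0 : Fin 2)).hasFDerivAt
    refine (((h1.const_mul (2 * e0 0)).smul_const e1).const_add e0).congr_fderiv ?_
    ext v i
    simp [e0_zero]
    ring
  have hB := hcc.clm_apply hw
  have hg : HasFDerivAt (fderiv ℝ (fun y => f (shF 1 y)))
      (fderiv ℝ (fderiv ℝ (fun y => f (shF 1 y))) 0) 0 := by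
    have h1 : ContDiffAt ℝ 2 (fun y => f (shF 1 y)) 0 := by
      have h2 : ContDiffAt ℝ 2 f (shF 1 0) := by rw [shF_origin]; exact hf
      exact h2.comp 0 ((contDiff_shF 1).contDiffAt.of_le le_top)
    exact ((h1.fderiv_right (m := 1) (by norm_num)).differentiableAt (by norm_num)).hasFDerivAt
  have hg1 : HasFDerivAt (fun x => fderiv ℝ (fun y => f (shF 1 y)) x e0)
      ((ContinuousLinearMap.apply ℝ (E 2) e0).comp
        (fderiv ℝ (fderiv ℝ (fun y => f (shF 1 y))) 0)) 0 :=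
    (ContinuousLinearMap.apply ℝ (E 2) e0).hasFDerivAt.comp 0 hg
  have hu := hg1.unique (hB.congr_of_eventuallyEq (key e0))
  have hfin := DFunLike.congr_fun hu e0
  have e : ((ContinuousLinearMap.apply ℝ (E 2) e0).comp
        (fderiv ℝ (fderiv ℝ (fun y => f (shF 1 y))) 0)) e0 =
      fderiv ℝ (fderiv ℝ (fun y => f (shF 1 y))) 0 e0 e0 := rfl
  rw [e] at hfin
  rw [hfin]
  simp [shF_origin, e0_zero]
  abel

/-! ### Coordinates -/

lemma rA_zero (x : E 2) : lin rA x 0 = x 0 + 2 * x 1 := by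
  rw [lin_apply]
  simp [rA, rho, gA, Fin.sum_univ_two]

lemma rA_one (x : E 2) : lin rA x 1 = x 1 := by
  rw [lin_apply]
  simp [rA, rho, gA, Fin.sum_univ_two]

lemma gC_val : ((gA * gB : SL(2, ℤ)) : Matrix (Fin 2) (Fin 2) ℤ) = !![5, 2; 2, 1] := by
  decide +kernel

lemma rC_zero (x : E 2) : lin rC x 0 = 5 * x 0 + 2 * x 1 := by
  rw [lin_apply, Fin.sum_univ_two]
  have h : ∀ i j, (rC : Matrix (Fin 2) (Fin 2) ℝ) i j =
      (((gA * gB : SL(2, ℤ)) : Matrix (Fin 2) (Fin 2) ℤ) i j : ℝ) := fun _ _ => rfl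
  rw [h, h, gC_val]
  simp

lemma rC_one (x : E 2) : lin rC x 1 = 2 * x 0 + x 1 := by
  rw [lin_apply, Fin.sum_univ_two]
  have h : ∀ i j, (rC : Matrix (Fin 2) (Fin 2) ℝ) i j =
      (((gA * gB : SL(2, ℤ)) : Matrix (Fin 2) (Fin 2) ℤ) i j : ℝ) := fun _ _ => rfl
  rw [h, h, gC_val]
  simp

lemma rA_e0 : lin rA e0 = e0 := by
  ext i
  fin_cases i
  · change lin rA e0 0 = e0 0
    rw [rA_zero, e0_zero, e0_one]; ring
  · change lin rA e0 1 = e0 1
    rw [rA_one]

lemma rA_e1 : lin rA e1 = (2 : ℝ) • e0 + e1 := by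
  ext i
  fin_cases i
  · change lin rA e1 0 = 2 * e0 0 + e1 0
    rw [rA_zero, e0_zero, e1_zero, e1_one]; ring
  · change lin rA e1 1 = 2 * e0 1 + e1 1
    rw [rA_one, e0_one]; ring

lemma rC_e0 : lin rC e0 = (5 : ℝ) • e0 + (2 : ℝ) • e1 := by
  ext i
  fin_cases i
  · change lin rC e0 0 = 5 * e0 0 + 2 * e1 0
    rw [rC_zero, e0_zero, e1_zero, e0_one]
  · change lin rC e0 1 = 5 * e0 1 + 2 * e1 1
    rw [rC_one, e0_one, e0_zero, e1_one]; ring

lemma rC_e1 : lin rC e1 = (2 : ℝ) • e0 + e1 := by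
  ext i
  fin_cases i
  · change lin rC e1 0 = 2 * e0 0 + e1 0
    rw [rC_zero, e0_zero, e1_zero, e1_one]; ring
  · change lin rC e1 1 = 2 * e0 1 + e1 1
    rw [rC_one, e0_one, e1_zero, e1_one]

/-- There is no nonzero quadratic map commuting with the hyperbolic matrix. -/
lemma quad_zero (B : E 2 →L[ℝ] E 2 →L[ℝ] E 2)
    (h : ∀ u v, B (lin rC u) (lin rC v) = lin rC (B u v)) : B e0 e0 = 0 := by
  have h00 := h e0 e0
  have h01 := h e0 e1
  have h10 := h e1 e0
  have h11 := h e1 e1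
  simp only [rC_e0, rC_e1, map_add, map_smul, add_apply,
    smul_apply] at h00 h01 h10 h11
  have c0 : ∀ {p q : E 2}, p = q → p 0 = q 0 := fun h => by rw [h]
  have c1 : ∀ {p q : E 2}, p = q → p 1 = q 1 := fun h => by rw [h]
  have a1 := c0 h00
  have a2 := c1 h00
  have a3 := c0 h01
  have a4 := c1 h01
  have a5 := c0 h10
  have a6 := c1 h10
  have a7 := c0 h11
  have a8 := c1 h11
  simp only [rC_zero, rC_one, PiLp.add_apply, PiLp.smul_apply, smul_eq_mul] at a1 a2 a3 a4 a5 a6 a7 a8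
  ext i
  fin_cases i
  · change B e0 e0 0 = 0
    linarith
  · change B e0 e0 1 = 0
    linarith

theorem not_linearizable : ¬ LinearizableNear 2 Gm o := by
  rintro ⟨V, W, φ, hV, hoV, hW, ⟨hφs, hmaps, ψ, hψs, -, hψφ, -⟩, hφ0, hφ⟩
  let f : E 2 → E 2 := φ
  let V' : Set (E 2) := V
  have hV' : V' ∈ 𝓝 (0 : E 2) := IsOpen.mem_nhds (X := E 2) hV hoV
  have hf : ContDiffAt ℝ 2 f 0 := by
    have h1 : ContMDiffOn (𝓡 2) (𝓡 2) ∞ f V' := hφs
    have h2 : ContDiffOn ℝ ∞ f V' := contMDiffOn_iff_contDiffOn.1 h1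
    have h3 : ContDiffAt ℝ ∞ f 0 := h2.contDiffAt hV'
    exact h3.of_le (WithTop.coe_le_coe.2 le_top)
  have hfc : ContinuousAt f 0 := hf.continuousAt
  have hφ' : ∀ (γ : Gm) (x : E 2), x ∈ V' → (actHom γ : E 2 → E 2) x ∈ V' →
      f ((actHom γ : E 2 → E 2) x) = lin (γ : SL(2, ℝ)) (f x) := by
    intro γ x hx hx'
    have h1 := hφ γ x hx hx'
    rw [der_smul] at h1
    exact h1
  -- the derivative at the origin is injective
  have hinj : ∀ u, fderiv ℝ f 0 u = 0 → u = 0 := by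
    let ψ' : E 2 → E 2 := ψ
    have h1 : ContMDiffOn (𝓡 2) (𝓡 2) ∞ ψ' W := hψs
    have h2 : ContDiffOn ℝ ∞ ψ' W := contMDiffOn_iff_contDiffOn.1 h1
    have h3 : ContDiffAt ℝ ∞ ψ' (f 0) := h2.contDiffAt (hW.mem_nhds (hmaps hoV))
    have h4 : HasFDerivAt (fun x => ψ' (f x)) ((fderiv ℝ ψ' (f 0)).comp (fderiv ℝ f 0)) 0 :=
      (h3.differentiableAt (by simp)).hasFDerivAt.comp 0
        (hf.differentiableAt (by norm_num)).hasFDerivAt
    have h5 : (fun x => ψ' (f x)) =ᶠ[𝓝 0] id := by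
      filter_upwards [hV'] with x hx
      exact hψφ x hx
    have h6 := h4.unique ((hasFDerivAt_id (0 : E 2)).congr_of_eventuallyEq h5)
    intro u hu
    have h7 := DFunLike.congr_fun h6 u
    rw [ContinuousLinearMap.comp_apply, hu, map_zero] at h7
    exact h7.symm
  -- commutation with the first generator
  have hA : ∀ᶠ x in 𝓝 (0 : E 2), f (lin rA x) = lin rA (f x) := by
    have h1 : Filter.Tendsto (lin rA) (𝓝 0) (𝓝 0) := by
      have := (lin rA).continuous.tendsto 0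
      rwa [map_zero] at this
    filter_upwards [hV', h1.eventually hV'] with x hx hx'
    have h2 := hφ' aG x hx (by rw [aG_act]; exact hx')
    rw [aG_val, aG_act] at h2
    exact h2
  -- commutation with the conjugate of the hyperbolic matrix
  have hC : ∀ᶠ x in 𝓝 (0 : E 2), f (shF 1 (lin rC x)) = lin rC (f (shF 1 x)) := by
    have h0 : Filter.Tendsto (shF 1) (𝓝 0) (𝓝 0) := by
      have := (contDiff_shF 1).continuous.tendsto 0
      rwa [shF_origin] at this
    have h1 : Filter.Tendsto (lin rC) (𝓝 0) (𝓝 0) := by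
      have := (lin rC).continuous.tendsto 0
      rwa [map_zero] at this
    filter_upwards [h0.eventually hV', (h0.comp h1).eventually hV'] with x hx hx'
    have e : (actHom cG : E 2 → E 2) (shF 1 x) = shF 1 (lin rC x) := by
      rw [cG_act, shF_shF]
      norm_num [shF_zero]
    have h2 := hφ' cG (shF 1 x) hx (by rw [e]; exact hx')
    rw [cG_val, e] at h2
    exact h2
  have hχ : ContDiffAt ℝ 2 (fun y => f (shF 1 y)) 0 := by
    have h2 : ContDiffAt ℝ 2 f (shF 1 0) := by rw [shF_origin]; exact hf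
    exact h2.comp 0 ((contDiff_shF 1).contDiffAt.of_le le_top)
  have h1 := quad_zero _ (snd_comm hχ hC)
  rw [snd_shear hf] at h1
  have h2 := snd_comm hf hA e0 e0
  rw [rA_e0] at h2
  have h3 : fderiv ℝ (fderiv ℝ f) 0 e0 e0 = -((2 : ℝ) • fderiv ℝ f 0 e1) :=
    eq_neg_of_add_eq_zero_left h1
  rw [h3, map_neg, map_smul, neg_inj] at h2
  have h4 : lin rA (fderiv ℝ f 0 e1) = fderiv ℝ f 0 e1 :=
    (smul_right_injective (E 2) (two_ne_zero (α := ℝ)) h2).symm
  have h5 := comm_at (f := f) (L := lin rA) (x := 0) (hf.differentiableAt (by norm_num))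
    (by rw [map_zero]; exact hf.differentiableAt (by norm_num)) hA e1
  rw [map_zero, h4, rA_e1, map_add, map_smul] at h5
  have h6 : fderiv ℝ f 0 e0 = 0 := by
    have : (2 : ℝ) • fderiv ℝ f 0 e0 = 0 := by
      have h7 := congrArg (fun z => z - fderiv ℝ f 0 e1) h5
      simpa using h7
    exact (smul_eq_zero.1 this).resolve_left two_ne_zero
  have h7 := hinj e0 h6
  have h8 := e0_zero
  rw [h7] at h8
  simp at h8

/-! ### The other properties -/

theorem smoothAction : SmoothAction 2 Gm Pl := by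
  refine ⟨inferInstanceAs (IsManifold (𝓡 2) ∞ (E 2)), inferInstanceAs (T2Space (E 2)),
    inferInstanceAs (SecondCountableTopology (E 2)), fun γ => ?_⟩
  change ContMDiff (𝓡 2) (𝓡 2) ∞ (actHom γ : E 2 → E 2)
  exact ((contDiff_act γ).of_le le_top).contMDiff

theorem fixed_eq (x : Pl) (hx : ∀ γ : Gm, γ • x = x) : x = o := by
  have ha : lin rA (x : E 2) = x := by
    have := hx aG
    rw [smul_def'] at this
    rw [← aG_act]; exact this
  have hc : shF 1 (lin rC (shF (-1) (x : E 2))) = x := by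
    have := hx cG
    rw [smul_def'] at this
    rw [← cG_act]; exact this
  have hy : lin rC (shF (-1) (x : E 2)) = shF (-1) x := by
    have h1 := congrArg (shF (-1)) hc
    rw [shF_shF] at h1
    norm_num [shF_zero] at h1
    exact h1
  have h0 := congrArg (fun z : E 2 => z 0) hy
  have h1 := congrArg (fun z : E 2 => z 1) hy
  simp only [rC_zero, rC_one] at h0 h1
  have y0 : shF (-1) (x : E 2) 0 = 0 := by linarith
  have y1 : shF (-1) (x : E 2) 1 = 0 := by linarith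
  have hy0 : shF (-1) (x : E 2) = 0 := by
    ext i
    fin_cases i
    · exact y0
    · exact y1
  rw [hy0, map_zero, shF_origin] at hc
  exact hc.symm

lemma pow_e1 (k : ℕ) : lin (rA ^ k) e1 = (2 * k : ℝ) • e0 + e1 := by
  induction k with
  | zero => simp [lin_one]
  | succ k ih =>
    rw [pow_succ', lin_mul_apply, ih, map_add, map_smul, rA_e0, rA_e1, ← add_assoc, ← add_smul]
    congr 2
    push_cast
    ring

theorem unbounded (C : ℝ) : ∃ γ : Gm, C < ‖der 2 o γ‖ := by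
  obtain ⟨k, hk⟩ := exists_nat_gt |C|
  refine ⟨aG ^ k, ?_⟩
  have e : ((aG ^ k : Gm) : SL(2, ℝ)) = rA ^ k := by
    rw [SubgroupClass.coe_pow, aG_val]
  rw [der_smul, e]
  have h1 := (lin (rA ^ k)).le_opNorm e1
  have h2 : ‖e1‖ = 1 := by simp [e1]
  rw [h2, mul_one, pow_e1] at h1
  have h3 := PiLp.norm_apply_le ((2 * k : ℝ) • e0 + e1 : E 2) 0
  have h4 : ((2 * k : ℝ) • e0 + e1 : E 2) 0 = 2 * k := by
    simp [e0_zero, e1_zero]
  rw [h4, Real.norm_of_nonneg (by positivity)] at h3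
  have h5 := le_abs_self C
  have h6 : (0 : ℝ) ≤ k := Nat.cast_nonneg k
  linarith

theorem not_global : ¬ HasLinearNeighborhood 2 Gm o := by
  rintro ⟨U, φ, hU, hoU, -, hd, hφ⟩
  apply not_linearizable
  refine ⟨U, Set.univ, φ, hU, hoU, isOpen_univ, hd, ?_, fun γ x hx _ => hφ γ x hx⟩
  have h1 := hφ aG o hoU
  have h2 := hφ cG o hoU
  rw [smul_o, der_smul, aG_val] at h1
  rw [smul_o, der_smul, cG_val] at h2
  have h3 := congrArg (fun z : E 2 => z 0) h2
  have h4 := congrArg (fun z : E 2 => z 1) h2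
  simp only [rC_zero, rC_one] at h3 h4
  have y0 : φ o 0 = 0 := by linarith
  have y1 : φ o 1 = 0 := by linarith
  ext i
  fin_cases i
  · exact y0
  · exact y1

end Pool.Agent.R805.LatAct
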